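import Pool.Agent.Work.MP_8a6869_an.FM.Stmts
import Pool.Agent.Work.MP_8a6869_an.CC.Final

/-!
# MP_8a6869_an, block FM, item Cof (helper4): the centraliser is co-amenable
-/

namespace MP8a6869.FM

open MP8a6869 MP8a6869.WR MP8a6869.WR.Contra MP8a6869.CC
open scoped InnerProductSpace ComplexOrder ENNReal
open Filter Topology

noncomputable section

namespace XCof

variable {G : Type} [Group G]

/-- the conjugation action of a subgroup -/
@[instance_reducible]
def act (H : Subgroup G) : MulAction H G where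
  smul h z := (h : G) * z * (h : G)⁻¹
  one_smul z := by
    change ((1 : H) : G) * z * ((1 : H) : G)⁻¹ = z
    simp
  mul_smul a b z := by
    change ((a * b : H) : G) * z * ((a * b : H) : G)⁻¹ = (a : G) * ((b : G) * z * (b : G)⁻¹) *
      (a : G)⁻¹
    rw [Subgroup.coe_mul, mul_inv_rev]
    group

/-- the moved points of the conjugation action of `Q` are those outside of the centraliser -/
theorem moved_eq (Q : Subgroup G) :
    @moved Q G _ (act Q) = ((Subgroup.centralizer (Q : Set G) : Subgroup G) : Set G)ᶜ := by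
  ext z
  rw [Set.mem_compl_iff, SetLike.mem_coe, Subgroup.mem_centralizer_iff]
  constructor
  · rintro ⟨γ, hγ⟩ h
    apply hγ
    change (γ : G) * z * (γ : G)⁻¹ = z
    rw [h γ γ.2, mul_inv_cancel_right]
  · intro h
    push Not at h
    obtain ⟨g, hg, hne⟩ := h
    refine ⟨⟨g, hg⟩, ?_⟩
    change g * z * g⁻¹ ≠ z
    intro h2
    exact hne (mul_inv_eq_iff_eq_mul.1 h2)

/-- the mass outside of the centraliser -/
theorem mass (hN : NulStmt) (hM : MssStmt) (U : Ultrafilter ℕ) (Q : Subgroup G)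
    (hQ : FixedMean Q) (v : ℕ → ell2 G) (hv : Tendsto (fun n => ‖v n‖) U (𝓝 1))
    (hinv : ∀ g, Tendsto (fun n => ‖leftReg G g (rightReg G g (v n)) - v n‖) U (𝓝 0)) :
    Tendsto (fun n => ‖v n - res ((Subgroup.centralizer (Q : Set G) : Subgroup G) : Set G) (v n)‖)
      U (𝓝 0) := by
  letI : MulAction Q G := act Q
  have h1 := hM hN Q G hQ U v hv (by
    intro γ
    refine (hinv ((γ : G)⁻¹)).congr fun n => ?_
    congr 2
    ext z
    rw [leftReg_apply, rightReg_apply, permL_apply, inv_inv]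
    rfl)
  refine h1.congr fun n => ?_
  have h2 : v n - res ((Subgroup.centralizer (Q : Set G) : Subgroup G) : Set G) (v n) =
      res (((Subgroup.centralizer (Q : Set G) : Subgroup G) : Set G)ᶜ) (v n) :=
    sub_eq_of_eq_add' (res_add_res _ (v n)).symm
  rw [h2]
  congr 2
  exact moved_eq Q

end XCof

open XCof in
theorem cof : CofStmt := by
  intro hN hM hIcc hFlp hEmb hSq hVcs hR hP hB hE U G _ _ _ hicc hEC Q hQ
  obtain ⟨hcnt, hicc2⟩ := hIcc G hicc
  have hinf2 : Infinite (Wr2 G) := Infinite.of_injective _ (hFlp G).1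
  obtain ⟨ι, hι⟩ := hEmb G (Wr2 G) (inl2 G) (hFlp G).1
  have hU : IsExistential U ι :=
    hEC (LG (Wr2 G)) (LG_factor (Wr2 G) hicc2) (Sep.separable_ell2 (Wr2 G)) ι
  obtain ⟨C, u, hC1, hF⟩ := hSq U G (Wr2 G) ι (inl2 G) (flip2 G) hι (hFlp G).2 hU
  set V := Subgroup.centralizer (Q : Set G) with hVd
  have hFV := hVcs U G C u hC1 hF
  refine com hB U G V (fun n => vec (u n)) hFV.vu ?_
  intro h
  have he1 := hFV.hu h
  have he2 : Tendsto (fun n => ‖vec (cj (u n) h) - res (V : Set G) (vec (cj (u n) h))‖) U (𝓝 0) :=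
    mass hN hM U Q hQ (fun n => vec (cj (u n) h)) (hFV.nw h) (fun g => hFV.cw g h)
  have he3 := hFV.ww h
  have hb : ∀ n, ‖blk V (leftReg G h (vec (u n))) - blk V (vec (u n))‖ ^ 2 ≤
      2 * (‖leftReg G h (vec (u n)) - op (u n) (vec (cj (u n) h))‖ +
        C * ‖vec (cj (u n) h) - res (V : Set G) (vec (cj (u n) h))‖) ^ 2 +
      2 * (C ^ 2 * (C ^ 2 * ‖vec (cj (u n) h) - res (V : Set G) (vec (cj (u n) h))‖ +
        ‖vec (cj (u n) h * star (cj (u n) h)) - delta 1‖)) := fun n =>
    hE hR hP hB G V (u n) (cj (u n) h) h C (C ^ 2) _ _ _ (hFV.bd n) (hFV.bdw h n)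
      le_rfl le_rfl le_rfl
  have hF0 : Tendsto (fun n => 2 * (‖leftReg G h (vec (u n)) - op (u n) (vec (cj (u n) h))‖ +
        C * ‖vec (cj (u n) h) - res (V : Set G) (vec (cj (u n) h))‖) ^ 2 +
      2 * (C ^ 2 * (C ^ 2 * ‖vec (cj (u n) h) - res (V : Set G) (vec (cj (u n) h))‖ +
        ‖vec (cj (u n) h * star (cj (u n) h)) - delta 1‖))) U (𝓝 0) := by
    have h1 := (((he1.add (he2.const_mul C)).pow 2).const_mul 2).add
      (((((he2.const_mul (C ^ 2)).add he3).const_mul (C ^ 2))).const_mul 2)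
    simpa using h1
  have hsq : Tendsto (fun n => Real.sqrt (2 * (‖leftReg G h (vec (u n)) -
        op (u n) (vec (cj (u n) h))‖ +
        C * ‖vec (cj (u n) h) - res (V : Set G) (vec (cj (u n) h))‖) ^ 2 +
      2 * (C ^ 2 * (C ^ 2 * ‖vec (cj (u n) h) - res (V : Set G) (vec (cj (u n) h))‖ +
        ‖vec (cj (u n) h * star (cj (u n) h)) - delta 1‖)))) U (𝓝 0) := by
    have h2 := (Real.continuous_sqrt.tendsto 0).comp hF0
    rw [Real.sqrt_zero] at h2
    exact h2
  exact squeeze_zero (fun n => norm_nonneg _) (fun n => Real.le_sqrt_of_sq_le (hb n)) hsq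

end

end MP8a6869.FM
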