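import Pool.Agent.Work.MP_8a6869_an.FM.Stmts
import Pool.Agent.Work.MP_8a6869_an.WR.MainA

/-!
# MP_8a6869_an, item HOM: isomorphic subgroups with the fixed point property are conjugate
-/

namespace MP8a6869.FM

open MP8a6869 MP8a6869.WR MP8a6869.WR.Contra MP8a6869.CC
open scoped InnerProductSpace ComplexOrder ENNReal
open Filter Topology

noncomputable section

namespace XHom

/-- the twisted conjugation action `h • z = α(h) z i(h)⁻¹` -/
def act {G H : Type} [Group G] [Group H] (i α : H →* G) : MulAction H G where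
  smul h z := α h * z * (i h)⁻¹
  one_smul z := by
    change α 1 * z * (i 1)⁻¹ = z
    simp
  mul_smul a b z := by
    change α (a * b) * z * (i (a * b))⁻¹ = α a * (α b * z * (i b)⁻¹) * (i a)⁻¹
    rw [map_mul, map_mul, mul_inv_rev]
    group

end XHom

open XHom in
theorem hom : HomStmt := by
  intro hNul hMss hModel hSeq U G _ _ _ hicc hEC H _ i α hH hi hα
  obtain ⟨M, hM, hsep, ι, ξ, hξ1, hξ0⟩ := hModel G hicc H i α hi hα
  obtain ⟨v, hv⟩ := hSeq U G M ι (hEC M hM hsep ι) ξ
  let A : MulAction H G := act i α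
  have hperm : ∀ (h : H) (f : ell2 G), permL (MulAction.toPerm h : Equiv.Perm G) f =
      leftReg G (α h)⁻¹ (rightReg G (i h)⁻¹ f) := by
    intro h f
    ext z
    rw [permL_apply, leftReg_apply, rightReg_apply, inv_inv]
    rfl
  have hlim : ∀ h : H, Tendsto
      (fun n => ⟪v n, leftReg G (α h) (rightReg G (i h) (v n))⟫_ℂ) U (𝓝 1) := by
    intro h
    have := hv (α h) (i h)
    rw [hξ1 h] at this
    exact this
  have hnorm : Tendsto (fun n => ‖v n‖) U (𝓝 1) := by
    have h1 := hlim 1
    have h2 : ∀ n, ⟪v n, leftReg G (α 1) (rightReg G (i 1) (v n))⟫_ℂ =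
        ((‖v n‖ ^ 2 : ℝ) : ℂ) := by
      intro n
      have h3 : leftReg G (α 1) (rightReg G (i 1) (v n)) = v n := by
        rw [map_one, map_one, leftReg_one, rightReg_one]
        rfl
      rw [h3, inner_self_eq_norm_sq_to_K]
      norm_cast
    simp only [h2] at h1
    have h4 : Tendsto (fun n => ‖v n‖ ^ 2) U (𝓝 1) := by
      have := (Complex.continuous_re.tendsto _).comp h1
      rw [Complex.one_re] at this
      refine this.congr fun n => ?_
      exact Complex.ofReal_re _
    have h5 := (Real.continuous_sqrt.tendsto _).comp h4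
    simpa [Function.comp_def, Real.sqrt_sq] using h5
  have hinv : ∀ h : H, Tendsto
      (fun n => ‖permL (MulAction.toPerm h : Equiv.Perm G) (v n) - v n‖) U (𝓝 0) := by
    intro h
    have h1 := hlim h⁻¹
    have h2 : Tendsto (fun n => ‖permL (MulAction.toPerm h : Equiv.Perm G) (v n) - v n‖ ^ 2) U
        (𝓝 0) := by
      have h3 : ∀ n, ‖permL (MulAction.toPerm h : Equiv.Perm G) (v n) - v n‖ ^ 2 =
          2 * ‖v n‖ ^ 2 - 2 * (⟪v n, leftReg G (α h⁻¹) (rightReg G (i h⁻¹) (v n))⟫_ℂ).re := by
        intro n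
        rw [hperm, MainA.norm_perm_sub_sq, map_inv, map_inv]
      simp only [h3]
      have h4 := (((hnorm.pow 2).const_mul 2).sub
        (((Complex.continuous_re.tendsto _).comp h1).const_mul 2))
      simpa using h4
    have h5 := (Real.continuous_sqrt.tendsto _).comp h2
    simpa [Function.comp_def, Real.sqrt_sq] using h5
  have hmass := hMss hNul H G hH U v hnorm hinv
  by_contra hne
  have hall : (moved H G : Set G) = Set.univ := by
    refine Set.eq_univ_of_forall fun z => ?_
    by_contra hz
    refine hne ⟨z, fun h => ?_⟩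
    have h1 : h • z = z := by
      by_contra h2
      exact hz ⟨h, h2⟩
    have h2 : α h * z * (i h)⁻¹ = z := h1
    rw [mul_inv_eq_iff_eq_mul] at h2
    rw [eq_mul_inv_iff_mul_eq]
    exact h2
  have hres : ∀ n, ‖res (moved H G) (v n)‖ = ‖v n‖ := by
    intro n
    congr 1
    ext z
    exact res_mem (hall ▸ Set.mem_univ z) (v n)
  simp only [hres] at hmass
  have := tendsto_nhds_unique hmass hnorm
  norm_num at this

end

end MP8a6869.FM
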