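import Pool.Agent.Work.MP_8a6869_an.FM.Stmts

/-!
# MP_8a6869_an, subgroups with the fixed point property: assembly
-/

namespace MP8a6869.FM

open MP8a6869 MP8a6869.WR MP8a6869.WR.Contra MP8a6869.CC
open scoped InnerProductSpace ComplexOrder ENNReal
open Filter Topology

noncomputable section

/-- A subgroup with the fixed point property fixes a point of `G / V` if `V` is co-amenable. -/
theorem fixCos (G : Type) [Group G] (V Q : Subgroup G) (hQ : FixedMean Q) (hV : CoAmen G V) :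
    ∃ x : G, ∀ q ∈ Q, x⁻¹ * q * x ∈ V := by
  obtain ⟨m, h0, h1, h2, h3⟩ := hV
  obtain ⟨c, hc⟩ := hQ (G ⧸ V) ⟨m, ⟨h0, h1, h2, fun γ A => h3 (γ : G) A⟩⟩
  obtain ⟨x, rfl⟩ := QuotientGroup.mk_surjective c
  refine ⟨x, fun q hq => ?_⟩
  have h4 : (QuotientGroup.mk (q * x) : G ⧸ V) = QuotientGroup.mk x := hc ⟨q, hq⟩
  have h5 := QuotientGroup.eq.1 h4.symm
  rw [← mul_assoc] at h5
  exact h5

/-- The main theorem in the working definitions: if `L(G)` is existentially closed then every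
group of automorphisms of `Γ ^ n` is a quotient of a subgroup of `G`. -/
theorem main (hNul : NulStmt) (hMss : MssStmt) (hPow : PowStmt) (hQuo : QuoStmt) (hCof : CofStmt)
    (hHom : HomStmt) (hPwr : PwrStmt) (hSec : SecStmt) (hIcc : IccStmt) (hFlp : FlpStmt)
    (hEmb : CC.EmbStmt) (hSq : Sq2Stmt) (hVcs : VcsStmt) (hRmu : RmuStmt) (hPin : PinStmt)
    (hBlk : BlkStmt) (hEst : EstStmt) (hMod : ModelAStmt) (hSeq : SeqStmt)
    (U : Ultrafilter ℕ) (G : Type) [Group G] [Countable G] [Infinite G] (hicc : Icc G)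
    (hEC : EC U G) (Γ : Subgroup G) (hΓ : FixedMean Γ) (hc : Subgroup.center Γ = ⊥)
    (n : ℕ) (F : Type) [Group F] (ρ : F →* MulAut (Fin n → Γ)) (hρ : Function.Injective ρ) :
    ∃ (S : Subgroup G) (f : S →* F), Function.Surjective f := by
  have hcof := hCof hNul hMss hIcc hFlp hEmb hSq hVcs hRmu hPin hBlk hEst U G hicc hEC
  have hhom := hHom hNul hMss hMod hSeq U G hicc hEC
  obtain ⟨φ, hφ⟩ := hPwr G Γ hc (fun n φ _ => by
    have hR : FixedMean φ.range :=
      hQuo _ _ φ.rangeRestrict φ.rangeRestrict_surjective (hPow hNul Γ n hΓ)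
    obtain ⟨x, hx⟩ := fixCos G _ φ.range hR (hcof φ.range hR)
    refine ⟨x, fun a b => ?_⟩
    exact Subgroup.mem_centralizer_iff.1 (hx (φ b) ⟨b, rfl⟩) (φ a) ⟨a, rfl⟩) n
  refine hSec G (Fin n → Γ) F φ hφ (fun a => ?_) ρ hρ
  exact hhom (Fin n → Γ) φ (φ.comp a.toMonoidHom) (hPow hNul Γ n hΓ) hφ (hφ.comp a.injective)

end

end MP8a6869.FM
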