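import Pool.Agent.Work.MP_8a6869_an.FM.Stmts

/-!
# MP_8a6869_an, FM: almost invariant vectors have no mass at the moved points
-/

namespace MP8a6869.FM

open MP8a6869 MP8a6869.WR MP8a6869.WR.Contra MP8a6869.CC
open scoped InnerProductSpace ComplexOrder ENNReal
open Filter Topology

noncomputable section

theorem mss : MssStmt := by
  intro hN Γ X _ _ hF U v hv hc
  choose a ha using XCo.lim U v hv
  have ha2 : ∀ A, Tendsto (fun n => ‖res A (v n)‖ ^ 2) U (𝓝 (a A ^ 2)) := fun A => (ha A).pow 2
  have hm : IsMean Γ X (fun A => a A ^ 2) := by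
    refine ⟨fun A => sq_nonneg _, ?_, fun A B hAB => ?_, fun g A => ?_⟩
    · have h1 := ha2 Set.univ
      simp only [XCo.res_univ] at h1
      have h2 := tendsto_nhds_unique h1 (hv.pow 2)
      show a Set.univ ^ 2 = 1
      rw [h2, one_pow]
    · have h1 := ha2 (A ∪ B)
      simp only [XCo.res_union hAB] at h1
      exact tendsto_nhds_unique h1 ((ha2 A).add (ha2 B))
    · have h2 : Tendsto (fun n => ‖res ((fun c : X => g • c) '' A) (v n)‖ - ‖res A (v n)‖) U
          (𝓝 0) := by
        refine squeeze_zero_norm (fun n => ?_) (hc g)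
        have h5 : ‖res ((fun c : X => g • c) '' A) (v n)‖ =
            ‖res A (permL (MulAction.toPerm g : Equiv.Perm X) (v n))‖ :=
          XCo.norm_res_image (MulAction.toPerm g : Equiv.Perm X) A (v n)
        rw [h5, Real.norm_eq_abs]
        refine (abs_norm_sub_norm_le _ _).trans ?_
        rw [← XCo.res_sub]
        exact norm_res_le _ _
      have h3 := tendsto_nhds_unique h2 ((ha _).sub (ha A))
      have h4 : a ((fun c : X => g • c) '' A) = a A := by linarith
      show a ((fun c : X => g • c) '' A) ^ 2 = a A ^ 2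
      rw [h4]
  have h0 : a (moved Γ X) ^ 2 = 0 := hN Γ X hF _ hm
  have h1 : a (moved Γ X) = 0 := by
    exact pow_eq_zero_iff (two_ne_zero) |>.1 h0
  have h2 := ha (moved Γ X)
  rwa [h1] at h2

end

end MP8a6869.FM
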