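import Pool.Agent.Work.MP_8a6869_an.FM.Stmts

/-!
# MP_8a6869_an, block FM: the moved points have mean zero
-/

set_option autoImplicit false

namespace MP8a6869.FM

open MP8a6869 MP8a6869.WR MP8a6869.WR.Contra MP8a6869.CC

noncomputable section

namespace XNul

theorem smul_mem {Γ X : Type} [Group Γ] [MulAction Γ X] (δ : Γ) {x : X} (hx : x ∈ moved Γ X) :
    δ • x ∈ moved Γ X := by
  obtain ⟨γ, hγ⟩ := hx
  refine ⟨δ * γ * δ⁻¹, fun h => hγ ?_⟩
  rw [mul_smul, inv_smul_smul, mul_smul] at h
  exact smul_left_cancel δ h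

/-- the action on the moved points -/
@[reducible] def act (Γ X : Type) [Group Γ] [MulAction Γ X] : MulAction Γ (moved Γ X) where
  smul γ x := ⟨γ • x.1, smul_mem γ x.2⟩
  one_smul x := Subtype.ext (one_smul Γ x.1)
  mul_smul γ δ x := Subtype.ext (mul_smul γ δ x.1)

end XNul

theorem nul : NulStmt := by
  intro Γ X _ _ hΓ m hm
  by_contra hne
  have hpos : 0 < m (moved Γ X) := lt_of_le_of_ne (hm.nonneg _) (Ne.symm hne)
  letI := XNul.act Γ X
  have hmean : IsMean Γ (moved Γ X)
      (fun A => m ((Subtype.val : moved Γ X → X) '' A) / m (moved Γ X)) := by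
    refine ⟨fun A => div_nonneg (hm.nonneg _) hpos.le, ?_, ?_, ?_⟩
    · show m ((Subtype.val : moved Γ X → X) '' Set.univ) / m (moved Γ X) = 1
      rw [Set.image_univ, Subtype.range_coe]
      exact div_self hne
    · intro A B hAB
      show m (Subtype.val '' (A ∪ B)) / m (moved Γ X) = m (Subtype.val '' A) / m (moved Γ X) +
        m (Subtype.val '' B) / m (moved Γ X)
      rw [Set.image_union, hm.add _ _ ((Set.disjoint_image_iff Subtype.val_injective).2 hAB),
        add_div]
    · intro γ A
      show m (Subtype.val '' ((fun x => γ • x) '' A)) / m (moved Γ X) =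
        m (Subtype.val '' A) / m (moved Γ X)
      have h1 : (Subtype.val : moved Γ X → X) '' ((fun x => γ • x) '' A) =
          (fun x : X => γ • x) '' (Subtype.val '' A) := by
        rw [Set.image_image, Set.image_image]
        rfl
      rw [h1, hm.inv]
  obtain ⟨x, hx⟩ := hΓ (moved Γ X) ⟨_, hmean⟩
  obtain ⟨γ, hγ⟩ := x.2
  exact hγ (congrArg Subtype.val (hx γ))

end

end MP8a6869.FM
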