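import Pool.Agent.Work.MP_8a6869_an.FM.Stmts

namespace MP8a6869.FM

open MP8a6869 MP8a6869.WR MP8a6869.WR.Contra MP8a6869.CC
open scoped InnerProductSpace ComplexOrder ENNReal
open Filter Topology

noncomputable section

namespace XPow

theorem mono {Γ X : Type} [Group Γ] [MulAction Γ X] {m : Set X → ℝ} (hm : IsMean Γ X m)
    {A B : Set X} (h : A ⊆ B) : m A ≤ m B := by
  have h1 : A ∪ (B \ A) = B := Set.union_diff_cancel h
  have h2 := hm.add A (B \ A) Set.disjoint_sdiff_right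
  rw [h1] at h2
  have h3 := hm.nonneg (B \ A)
  linarith

theorem sub {Γ X : Type} [Group Γ] [MulAction Γ X] {m : Set X → ℝ} (hm : IsMean Γ X m)
    (A B : Set X) : m (A ∪ B) ≤ m A + m B := by
  have h1 : A ∪ (B \ A) = A ∪ B := Set.union_diff_self
  have h2 := hm.add A (B \ A) Set.disjoint_sdiff_right
  rw [h1] at h2
  have h3 := mono hm (Set.diff_subset : B \ A ⊆ B)
  linarith

theorem empty {Γ X : Type} [Group Γ] [MulAction Γ X] {m : Set X → ℝ} (hm : IsMean Γ X m) :
    m ∅ = 0 := by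
  have h2 := hm.add ∅ ∅ (Set.disjoint_empty _)
  rw [Set.union_self] at h2
  linarith

theorem null {Γ X : Type} [Group Γ] [MulAction Γ X] {m : Set X → ℝ} (hm : IsMean Γ X m)
    {ι : Type} (N : ι → Set X) (hN : ∀ i, m (N i) = 0) (s : Finset ι) :
    m (⋃ i ∈ s, N i) = 0 := by
  classical
  induction s using Finset.induction_on with
  | empty =>
    have : (⋃ i ∈ (∅ : Finset ι), N i) = ∅ := by simp
    rw [this]
    exact empty hm
  | insert a s ha ih =>
    have h1 : (⋃ i ∈ insert a s, N i) = N a ∪ (⋃ i ∈ s, N i) := by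
      rw [Finset.set_biUnion_insert]
    rw [h1]
    have h2 := sub hm (N a) (⋃ i ∈ s, N i)
    rw [ih, hN a] at h2
    have h3 := hm.nonneg (N a ∪ (⋃ i ∈ s, N i))
    linarith

/-- The action of `Γ` through the coordinate `i`. -/
@[reducible] def act (Γ : Type) [Group Γ] (n : ℕ) (X : Type) [MulAction (Fin n → Γ) X] (i : Fin n) :
    MulAction Γ X :=
  MulAction.compHom X (MonoidHom.mulSingle (fun _ : Fin n => Γ) i)

end XPow

theorem pow : PowStmt := by
  intro hnul Γ _ n hF X _ hm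
  obtain ⟨m, hm⟩ := hm
  have hi : ∀ i : Fin n, @IsMean Γ X _ (XPow.act Γ n X i) m := by
    intro i
    letI := XPow.act Γ n X i
    refine ⟨hm.nonneg, hm.univ, hm.add, ?_⟩
    intro γ A
    exact hm.inv (MonoidHom.mulSingle (fun _ : Fin n => Γ) i γ) A
  have h0 : ∀ i : Fin n, m (@moved Γ X _ (XPow.act Γ n X i)) = 0 := by
    intro i
    exact @hnul Γ X _ (XPow.act Γ n X i) hF m (hi i)
  have h1 := XPow.null hm (fun i => @moved Γ X _ (XPow.act Γ n X i)) h0 Finset.univ
  have h2 : ∃ x : X, x ∉ (⋃ i ∈ (Finset.univ : Finset (Fin n)), @moved Γ X _ (XPow.act Γ n X i)) := by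
    by_contra hc
    push Not at hc
    have h3 : (⋃ i ∈ (Finset.univ : Finset (Fin n)), @moved Γ X _ (XPow.act Γ n X i)) = Set.univ :=
      Set.eq_univ_of_forall hc
    rw [h3, hm.univ] at h1
    exact one_ne_zero h1
  obtain ⟨x, hx⟩ := h2
  refine ⟨x, ?_⟩
  have h4 : ∀ (i : Fin n) (γ : Γ), (Pi.mulSingle i γ : Fin n → Γ) • x = x := by
    intro i γ
    by_contra hc
    apply hx
    simp only [Set.mem_iUnion]
    exact ⟨i, Finset.mem_univ i, ⟨γ, hc⟩⟩
  intro f
  have h5 : f ∈ MulAction.stabilizer (Fin n → Γ) x := by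
    apply Subgroup.pi_mem_of_mulSingle_mem
    intro i
    exact h4 i (f i)
  exact h5

end

end MP8a6869.FM
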