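import Pool.Agent.Work.MP_8a6869_an.FM.Stmts

/-!
# MP_8a6869_an, block FM: powers of a subgroup with trivial centre
-/

namespace MP8a6869.FM

open MP8a6869 MP8a6869.WR MP8a6869.WR.Contra MP8a6869.CC
open scoped InnerProductSpace ComplexOrder ENNReal
open Filter Topology

namespace XPwr

/-- The homomorphism `f ↦ φ (tail f) * (x⁻¹ * φ (single 0 (f 0)) * x)`. -/
def ext {G : Type} [Group G] {Γ : Subgroup G} {n : ℕ} (φ : (Fin (n + 1) → Γ) →* G) (x : G)
    (hx : ∀ a b : Fin (n + 1) → Γ, φ a * (x⁻¹ * φ b * x) = x⁻¹ * φ b * x * φ a) :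
    (Fin (n + 1 + 1) → Γ) →* G where
  toFun f := φ (Fin.tail f) * (x⁻¹ * φ (Pi.mulSingle 0 (f 0)) * x)
  map_one' := by
    have h1 : (Fin.tail (1 : Fin (n + 1 + 1) → Γ)) = (1 : Fin (n + 1) → Γ) := rfl
    rw [h1]
    simp
  map_mul' f g := by
    have h1 : Fin.tail (f * g) = Fin.tail f * Fin.tail g := rfl
    have h2 : (Pi.mulSingle 0 ((f * g) 0) : Fin (n + 1) → Γ)
        = Pi.mulSingle 0 (f 0) * Pi.mulSingle 0 (g 0) := by
      rw [Pi.mul_apply, Pi.mulSingle_mul]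
    rw [h1, h2, map_mul, map_mul]
    have h3 := hx (Fin.tail g) (Pi.mulSingle 0 (f 0))
    calc φ (Fin.tail f) * φ (Fin.tail g) *
          (x⁻¹ * (φ (Pi.mulSingle 0 (f 0)) * φ (Pi.mulSingle 0 (g 0))) * x)
        = φ (Fin.tail f) * (φ (Fin.tail g) * (x⁻¹ * φ (Pi.mulSingle 0 (f 0)) * x)) *
          (x⁻¹ * φ (Pi.mulSingle 0 (g 0)) * x) := by group
      _ = φ (Fin.tail f) * (x⁻¹ * φ (Pi.mulSingle 0 (f 0)) * x * φ (Fin.tail g)) *
          (x⁻¹ * φ (Pi.mulSingle 0 (g 0)) * x) := by rw [h3]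
      _ = φ (Fin.tail f) * (x⁻¹ * φ (Pi.mulSingle 0 (f 0)) * x) *
          (φ (Fin.tail g) * (x⁻¹ * φ (Pi.mulSingle 0 (g 0)) * x)) := by group

theorem ext_injective {G : Type} [Group G] {Γ : Subgroup G} {n : ℕ}
    (hc : Subgroup.center Γ = ⊥) (φ : (Fin (n + 1) → Γ) →* G) (hφ : Function.Injective φ) (x : G)
    (hx : ∀ a b : Fin (n + 1) → Γ, φ a * (x⁻¹ * φ b * x) = x⁻¹ * φ b * x * φ a) :
    Function.Injective (ext φ x hx) := by
  rw [injective_iff_map_eq_one]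
  intro f hf
  have hf' : φ (Fin.tail f) * (x⁻¹ * φ (Pi.mulSingle 0 (f 0)) * x) = 1 := hf
  have ha : φ (Fin.tail f) = (x⁻¹ * φ (Pi.mulSingle 0 (f 0)) * x)⁻¹ := eq_inv_of_mul_eq_one_left hf'
  -- the tail commutes with everything
  have hcom : ∀ c : Fin (n + 1) → Γ, Fin.tail f * c = c * Fin.tail f := by
    intro c
    apply hφ
    rw [map_mul, map_mul, ha]
    have h1 : Commute (φ c) (x⁻¹ * φ (Pi.mulSingle 0 (f 0)) * x) := hx c _
    exact (h1.inv_right).symm
  have htail : Fin.tail f = 1 := by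
    funext i
    have h1 : Fin.tail f i ∈ Subgroup.center Γ := by
      rw [Subgroup.mem_center_iff]
      intro g
      have h2 := congrFun (hcom (fun _ => g)) i
      exact h2.symm
    rw [hc, Subgroup.mem_bot] at h1
    exact h1
  have h0 : f 0 = 1 := by
    rw [htail, map_one, one_mul] at hf'
    have h1 : φ (Pi.mulSingle 0 (f 0)) = 1 := by
      have h2 : φ (Pi.mulSingle 0 (f 0)) = x * (x⁻¹ * φ (Pi.mulSingle 0 (f 0)) * x) * x⁻¹ := by
        group
      rw [h2, hf']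
      group
    have h3 : (Pi.mulSingle 0 (f 0) : Fin (n + 1) → Γ) = 1 := by
      apply hφ
      rw [h1, map_one]
    have h4 := congrFun h3 0
    simpa using h4
  funext i
  refine Fin.cases h0 (fun j => ?_) i
  exact congrFun htail j

end XPwr

theorem pwr : PwrStmt := by
  intro G _ Γ hc hF n
  induction n with
  | zero => exact ⟨1, fun a b _ => Subsingleton.elim a b⟩
  | succ n ih =>
    obtain ⟨φ, hφ⟩ := ih
    rcases n with _ | n
    · refine ⟨Γ.subtype.comp (Pi.evalMonoidHom (fun _ : Fin (0 + 1) => Γ) 0), ?_⟩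
      intro a b h
      funext i
      have h1 : ((a 0 : Γ) : G) = ((b 0 : Γ) : G) := h
      have h2 : a 0 = b 0 := Subtype.ext h1
      have h3 : i = 0 := Subsingleton.elim (α := Fin 1) i 0
      rw [h3, h2]
    · obtain ⟨x, hx⟩ := hF (n + 1) φ hφ
      exact ⟨XPwr.ext φ x hx, XPwr.ext_injective hc φ hφ x hx⟩

end MP8a6869.FM
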