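import Pool.Agent.Work.MP_8a6869_an.FM.Stmts

/-!
# MP_8a6869_an, block FM, item Quo: quotients have the fixed point property
-/

set_option autoImplicit false

namespace MP8a6869.FM

open MP8a6869 MP8a6869.WR MP8a6869.WR.Contra MP8a6869.CC
open scoped InnerProductSpace ComplexOrder ENNReal
open Filter Topology

noncomputable section

theorem quo : QuoStmt := by
  intro A B _ _ f hf hA X actB hm
  obtain ⟨m, hm⟩ := hm
  let actA : MulAction A X := MulAction.compHom X f
  have hsm : ∀ (a : A) (x : X), @HSMul.hSMul A X X (@instHSMul A X actA.toSMul) a x = f a • x :=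
    fun _ _ => rfl
  obtain ⟨x, hx⟩ := @hA X actA ⟨m, @IsMean.mk A X _ actA m hm.nonneg hm.univ hm.add
    (fun a S => hm.inv (f a) S)⟩
  refine ⟨x, fun b => ?_⟩
  obtain ⟨a, rfl⟩ := hf b
  rw [← hsm]
  exact hx a

end

end MP8a6869.FM
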