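import Pool.Agent.Work.MP_8a6869_an.FM.Stmts

/-!
# MP_8a6869_an, block FM, item SEC: the normaliser

Author: helper5.
-/

namespace MP8a6869.FM

open MP8a6869 MP8a6869.WR MP8a6869.WR.Contra MP8a6869.CC
open scoped InnerProductSpace ComplexOrder ENNReal
open Filter Topology

namespace XSec

variable {G H F : Type} [Group G] [Group H] [Group F]

/-- `z` acts on the image of `φ` as the automorphism `ρ t` -/
def Rel (φ : H →* G) (ρ : F →* MulAut H) (z : G) (t : F) : Prop :=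
  ∀ h : H, φ (ρ t h) = z * φ h * z⁻¹

theorem rel_one (φ : H →* G) (ρ : F →* MulAut H) : Rel φ ρ 1 1 := by
  intro h
  simp

theorem rel_mul (φ : H →* G) (ρ : F →* MulAut H) {z z' : G} {t t' : F} (h1 : Rel φ ρ z t)
    (h2 : Rel φ ρ z' t') : Rel φ ρ (z * z') (t * t') := by
  intro h
  rw [map_mul, MulAut.mul_apply, h1, h2]
  group

theorem rel_inv (φ : H →* G) (ρ : F →* MulAut H) {z : G} {t : F} (h1 : Rel φ ρ z t) :
    Rel φ ρ z⁻¹ t⁻¹ := by
  intro h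
  have e : ρ t (ρ t⁻¹ h) = h := by
    rw [← MulAut.mul_apply, ← map_mul, mul_inv_cancel, map_one, MulAut.one_apply]
  have h2 := h1 (ρ t⁻¹ h)
  rw [e] at h2
  rw [h2]
  group

theorem rel_unique (φ : H →* G) (hφ : Function.Injective φ) (ρ : F →* MulAut H)
    (hρ : Function.Injective ρ) {z : G} {t t' : F} (h1 : Rel φ ρ z t) (h2 : Rel φ ρ z t') :
    t = t' := by
  apply hρ
  apply MulEquiv.ext
  intro h
  apply hφ
  rw [h1, h2]

/-- the subgroup -/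
def sub (φ : H →* G) (ρ : F →* MulAut H) : Subgroup G where
  carrier := {z | ∃ t : F, Rel φ ρ z t}
  mul_mem' := fun {_ _} ha hb => ⟨_, rel_mul φ ρ ha.choose_spec hb.choose_spec⟩
  one_mem' := ⟨1, rel_one φ ρ⟩
  inv_mem' := fun {_} ha => ⟨_, rel_inv φ ρ ha.choose_spec⟩

theorem exists_rel (φ : H →* G) (ρ : F →* MulAut H) (z : sub φ ρ) : ∃ t : F, Rel φ ρ z.1 t := z.2

end XSec

theorem sec : SecStmt := by
  intro G H F _ _ _ φ hφ hz ρ hρ
  choose f hf using XSec.exists_rel φ ρ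
  refine ⟨XSec.sub φ ρ, MonoidHom.mk' f ?_, ?_⟩
  · intro a b
    exact XSec.rel_unique φ hφ ρ hρ (hf (a * b)) (XSec.rel_mul φ ρ (hf a) (hf b))
  · intro t
    obtain ⟨z, hz'⟩ := hz (ρ t)
    refine ⟨⟨z, ⟨t, hz'⟩⟩, ?_⟩
    exact XSec.rel_unique φ hφ ρ hρ (hf ⟨z, ⟨t, hz'⟩⟩) hz'

end MP8a6869.FM
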