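import Pool.Agent.Work.MP_8a6869_an.CC.Co

/-!
# MP_8a6869_an, subgroups with the fixed point property: definitions and statements

A group `Γ` has the fixed point property (`FixedMean`, Glasner and Monod) if every action of `Γ` on a set
with an invariant mean has a fixed point. If `L(G)` is existentially closed then every isomorphism between
subgroups of `G` with this property is the restriction of an inner automorphism of `G`, and every such
subgroup `Q` has a conjugate which commutes with `Q`.

Every docstring is the complete proof.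
-/

namespace MP8a6869.FM

open MP8a6869 MP8a6869.WR MP8a6869.WR.Contra MP8a6869.CC
open scoped InnerProductSpace ComplexOrder ENNReal
open Filter Topology

noncomputable section

/-- `m` is a finitely additive probability measure on all subsets of `X`, invariant under `Γ`. -/
structure IsMean (Γ X : Type) [Group Γ] [MulAction Γ X] (m : Set X → ℝ) : Prop where
  nonneg : ∀ A, 0 ≤ m A
  univ : m Set.univ = 1
  add : ∀ A B, Disjoint A B → m (A ∪ B) = m A + m B
  inv : ∀ (γ : Γ) (A : Set X), m ((fun x => γ • x) '' A) = m A

/-- The fixed point property: every action of `Γ` on a set with an invariant mean has a fixed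
point. -/
def FixedMean (Γ : Type) [Group Γ] : Prop :=
  ∀ (X : Type) [MulAction Γ X], (∃ m : Set X → ℝ, IsMean Γ X m) → ∃ x : X, ∀ γ : Γ, γ • x = x

/-- The points which are not fixed. -/
def moved (Γ X : Type) [Group Γ] [MulAction Γ X] : Set X := {x | ∃ γ : Γ, γ • x ≠ x}

/-- `L(G)` is existentially closed (for the separable II_1 factors), working definitions. -/
def EC (U : Ultrafilter ℕ) (G : Type) [Group G] : Prop :=
  ∀ M : TracialVNA, M.IsII1Factor → TopologicalSpace.SeparableSpace M.H →
    ∀ ι : Embedding (LG G) M, IsExistential U ι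

/-- [NUL] EASY-MEDIUM. The moved points have mean zero. Proof. `X' = moved Γ X` is invariant under `Γ` (if `γ • x ≠ x`
then `(δ γ δ⁻¹) • (δ • x) ≠ δ • x`), so `Γ` acts on the subtype `X'` (`MulAction` with
`smul γ x = ⟨γ • x.1, _⟩`). If `m X' ≠ 0` then `m' A = m (Subtype.val '' A) / m X'` is an invariant mean on `X'`
(`Set.image_union`, images of disjoint sets under the injective map `Subtype.val` are disjoint,
`Subtype.val '' ((γ • ·) '' A) = (γ • ·) '' (Subtype.val '' A)`). By `FixedMean` there is a fixed point in `X'`,
that is a moved point which is not moved. -/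
def NulStmt : Prop :=
  ∀ (Γ X : Type) [Group Γ] [MulAction Γ X], FixedMean Γ → ∀ m : Set X → ℝ, IsMean Γ X m →
    m (moved Γ X) = 0

/-- [MSS] EASY-MEDIUM. Almost invariant vectors have no mass at the moved points. Proof. Put `c A = lim ‖res A (v n)‖`
along `U` (`CC.XCo.lim`) and `m A = (c A) ^ 2`. Exactly as in the proof of `CC.com` in `CC/Co.lean` (`XCo.res_univ`,
`XCo.res_union`, `XCo.norm_res_image`, `XCo.res_sub`, `norm_res_le`; here directly with `permL (toPerm γ) (v n)` in the
place of the left translation of the blocks) `m` is an invariant mean on `X`: `IsMean Γ X m`. By `NulStmt`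
`m (moved Γ X) = 0`, so `‖res (moved Γ X) (v n)‖ → c (moved Γ X) = 0`. -/
def MssStmt : Prop :=
  NulStmt → ∀ (Γ X : Type) [Group Γ] [MulAction Γ X], FixedMean Γ →
    ∀ (U : Ultrafilter ℕ) (v : ℕ → ell2 X), Tendsto (fun n => ‖v n‖) U (𝓝 1) →
      (∀ γ : Γ, Tendsto (fun n => ‖permL (MulAction.toPerm γ) (v n) - v n‖) U (𝓝 0)) →
      Tendsto (fun n => ‖res (moved Γ X) (v n)‖) U (𝓝 0)

/-- [POW] EASY-MEDIUM. Powers. Proof. Let `Fin n → Γ` act on `X` with an invariant mean `m`. For `i : Fin n` let `Γ` act on
`X` through `Pi.mulSingle i` (`MulAction.compHom X (MonoidHom.mulSingle (fun _ => Γ) i)`; write the action as an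
explicit `MulAction` and pass it as an instance argument, `@`-notation); `m` is invariant under it, so by `NulStmt`
the set `N i` of the points moved by some `Pi.mulSingle i γ` has `m (N i) = 0`. `m` is monotone and finitely
subadditive, so `m (⋃ i, N i) = 0 < 1 = m univ` and there is `x` outside all `N i`. Every
`f : Fin n → Γ` is the product of the `Pi.mulSingle i (f i)` (`Finset.noncommProd_mul_single` or induction: the
stabiliser of `x` is a subgroup containing all `Pi.mulSingle i γ`; `Subgroup.pi_mem_of_mulSingle_mem`), so `x` is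
fixed. -/
def PowStmt : Prop :=
  NulStmt → ∀ (Γ : Type) [Group Γ] (n : ℕ), FixedMean Γ → FixedMean (Fin n → Γ)

/-- [QUO] EASY. Quotients. Proof. Let `B` act on `X` with the invariant mean `m`. `A` acts on `X` through `f`
(`MulAction.compHom X f`, explicit instance), `m` is invariant under `A`; a fixed point of `A` is a fixed point of
`B` since `f` is surjective. -/
def QuoStmt : Prop :=
  ∀ (A B : Type) [Group A] [Group B] (f : A →* B), Function.Surjective f → FixedMean A →
    FixedMean B

/-- [COF] EASY-MEDIUM. The centraliser of `Q` is co-amenable. Proof. Apply `EC` to the embedding of `EmbStmt` in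
`L(G ≀ ℤ/2)` as in `CC.mainCC` (`CC/Final.lean`: `IccStmt`, `FlpStmt`, `EmbStmt`, `LG_factor`, `Sep.separable_ell2`) and
`Sq2Stmt`: this gives `C`, `u` with `1 ≤ C` and `Flip U G C u`, then `FlipV U G C u` by `VcsStmt`. Let
`V = Subgroup.centralizer (Q : Set G)`. The proof of `CC.mcc2` (`CC/Co.lean`) applies with the only change that
`he2`, that is `‖vec (cj (u n) h) - res V (vec (cj (u n) h))‖ → 0`, comes from `MssStmt`: `Q` acts on
`X = G` by conjugation (`γ • z = γ z γ⁻¹`, explicit `MulAction Q G`), `permL (toPerm γ) v = leftReg γ⁻¹ (rightReg γ⁻¹ v)`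
(see the proof of `MasStmt` in `CC/Mas.lean`), `moved Q G` is the complement of `V`, and
`v - res V v = res (moved Q G) v` (`WR.Contra.res_add_res` or pointwise). The hypotheses of `MssStmt` for
`v n = vec (cj (u n) h)` are `FlipV.nw h` and `FlipV.cw g h` (`g = γ⁻¹`). -/
def CofStmt : Prop :=
  NulStmt → MssStmt → IccStmt → FlpStmt → CC.EmbStmt → Sq2Stmt → VcsStmt → RmuStmt → PinStmt →
  BlkStmt → EstStmt →
  ∀ (U : Ultrafilter ℕ) (G : Type) [Group G] [Countable G] [Infinite G], Icc G → EC U G →
    ∀ Q : Subgroup G, FixedMean Q → CoAmen G (Subgroup.centralizer (Q : Set G))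

/-- [HOM] EASY-MEDIUM. Isomorphic subgroups are conjugate. Proof. `ModelAStmt` for `i`, `α` gives `M`, `ι`, `ξ`; `EC` says that
`ι` is existential, `SeqStmt` gives `v n` with `⟪v n, leftReg (α h) (rightReg (i h) (v n))⟫ → 1` for all `h : H`. As in
the proof of `mainA` (`WR/MainA.lean`, with `i h` in the place of `(h : G)`): `‖v n‖ → 1` (take `h = 1`), and for the
action `h • z = α h * z * (i h)⁻¹` of `H` on `G` (explicit `MulAction H G`, as `MainA.act`)
`‖permL (toPerm h) (v n) - v n‖ → 0` (`MainA.norm_perm_sub_sq`). `MssStmt`: `‖res (moved H G) (v n)‖ → 0`. If all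
points of `G` were moved then `res (moved H G) (v n) = v n` has norm tending to `1`, contradiction. So there is
`z` with `α h * z * (i h)⁻¹ = z` for all `h`. -/
def HomStmt : Prop :=
  NulStmt → MssStmt → ModelAStmt → SeqStmt →
  ∀ (U : Ultrafilter ℕ) (G : Type) [Group G] [Countable G] [Infinite G], Icc G → EC U G →
    ∀ (H : Type) [Group H] (i α : H →* G), FixedMean H → Function.Injective i →
      Function.Injective α → ∃ z : G, ∀ h : H, α h = z * i h * z⁻¹

/-- [PWR] EASY-MEDIUM. Powers of `Γ` in `G`. Proof. Induction on `n`. `n = 0`: `Fin 0 → Γ` is trivial, take the trivial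
homomorphism. `n = 1`: compose the inclusion with `(Fin 1 → Γ) ≃* Γ`. Step from `n ≥ 1` to `n + 1`: let
`φ : (Fin n → Γ) →* G` be injective, `Q = φ.range`. By hypothesis (`hF`: `φ.range` has the property by `PowStmt` and
`QuoStmt` for `φ.rangeRestrict`) there is `x` such that `x⁻¹ * q * x` commutes with `Q` for every `q ∈ Q`. Put
`Φ f = φ (Fin.tail f) * (x⁻¹ * φ (Pi.mulSingle 0 (f 0)) * x)` (`0 : Fin n` exists as `n ≥ 1`). It is a homomorphism as
the two factors commute. Injective: if `Φ f = 1` then `a = φ (Fin.tail f)` is the inverse of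
`x⁻¹ * φ (...) * x`, which commutes with `Q`; so `a` commutes with `Q`, and as `φ` is injective `Fin.tail f` commutes with
all of `Fin n → Γ`, so each coordinate is in the centre of `Γ`, which is trivial; then
`φ (Pi.mulSingle 0 (f 0)) = 1`, so `f 0 = 1`. -/
def PwrStmt : Prop :=
  ∀ (G : Type) [Group G] (Γ : Subgroup G), Subgroup.center Γ = ⊥ →
    (∀ (n : ℕ) (φ : (Fin n → Γ) →* G), Function.Injective φ →
      ∃ x : G, ∀ a b : Fin n → Γ, φ a * (x⁻¹ * φ b * x) = x⁻¹ * φ b * x * φ a) →
    ∀ n : ℕ, ∃ φ : (Fin n → Γ) →* G, Function.Injective φ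

/-- [SEC] EASY-MEDIUM. The normaliser. Proof. Let `φ : H →* G` be injective and for every automorphism `a` of `H` let there
be `z` with `φ (a h) = z * φ h * z⁻¹` for all `h` (hypothesis). Let `ρ : F →* MulAut H` be injective. Let `S` be the
subgroup of the `z : G` for which there is `t : F` with `φ (ρ t h) = z * φ h * z⁻¹` for all `h` (closed under
products and inverses). `t` is uniquely determined by `z`, since `φ` and `ρ` are injective
(`MulEquiv.ext`). The map `z ↦ t` (`Classical.choose`) is a homomorphism `S →* F` by uniqueness, and it is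
surjective by the hypothesis for `a = ρ t`. -/
def SecStmt : Prop :=
  ∀ (G H F : Type) [Group G] [Group H] [Group F] (φ : H →* G), Function.Injective φ →
    (∀ a : MulAut H, ∃ z : G, ∀ h : H, φ (a h) = z * φ h * z⁻¹) →
    ∀ ρ : F →* MulAut H, Function.Injective ρ →
      ∃ (S : Subgroup G) (f : S →* F), Function.Surjective f

end

end MP8a6869.FM
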